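import Mathlib
import Pool.Agent.W805.LR.Stm7

/-!
# Local limit: the fraction of points in short cycles converges
-/

set_option autoImplicit false

namespace Pool.Agent.W407.PD.LO

open Finset Equiv Filter Topology
open Pool.Agent.W805.LR Pool.Agent.W805.PD

section general

variable {V : Type} [Fintype V] [DecidableEq V]

lemma ringSum_nonneg (J : V → V → ℝ) (hJ : ∀ x y, 0 ≤ J x y) (m : ℕ) :
    ∀ g : Perm V, 0 ≤ ringSum J m g := by
  induction m with
  | zero =>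
    intro g
    simp only [ringSum]
    split_ifs <;> norm_num
  | succ m ih =>
    intro g
    simp only [ringSum]
    exact sum_nonneg fun x _ => sum_nonneg fun y _ =>
      mul_nonneg (div_nonneg (hJ x y) (by norm_num)) (ih _)

lemma stirMass_nonneg (J : V → V → ℝ) (hJ : ∀ x y, 0 ≤ J x y) (t : ℝ) (ht : 0 ≤ t)
    (g : Perm V) : 0 ≤ stirMass J t g :=
  tsum_nonneg fun m => mul_nonneg (div_nonneg (pow_nonneg ht m) (Nat.cast_nonneg _))
    (ringSum_nonneg J hJ m g)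

lemma EE_mem (J : V → V → ℝ) (hJ : ∀ x y, 0 ≤ J x y) (t : ℝ) (ht : 0 ≤ t) (F : Perm V → ℝ)
    (B : ℝ) (hB : 0 ≤ B) (h0 : ∀ g, 0 ≤ F g) (h1 : ∀ g, F g ≤ B) :
    0 ≤ EE J t F ∧ EE J t F ≤ B := by
  have hm := stirMass_nonneg J hJ t ht
  have hden : 0 ≤ ∑ g, stirMass J t g := sum_nonneg fun g _ => hm g
  unfold EE
  refine ⟨div_nonneg (sum_nonneg fun g _ => mul_nonneg (hm g) (h0 g)) hden, ?_⟩
  refine div_le_of_le_mul₀ hden hB ?_
  rw [Finset.mul_sum]
  refine sum_le_sum fun g _ => ?_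
  rw [mul_comm]
  exact mul_le_mul_of_nonneg_right (h1 g) (hm g)

omit [DecidableEq V] in
lemma cnt_mem (P : V → Prop) : 0 ≤ cnt P ∧ cnt P ≤ Fintype.card V := by
  classical
  unfold cnt
  constructor
  · exact sum_nonneg fun v _ => by split_ifs <;> norm_num
  · calc _ ≤ ∑ _v : V, (1 : ℝ) := sum_le_sum fun v _ => by split_ifs <;> norm_num
      _ = Fintype.card V := by simp

end general

/-- the main estimate -/
lemma est (hcmp : S_cmp) (hcut : S_cut) (hwrap : S_wrap) (hdiff : S_diff) (d : ℕ)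
    (φ : (Fin d → ℤ) → ℝ) (s t ε : ℝ) (hφ : IsKer d φ) (hs : 0 ≤ s) (ht : 0 ≤ t) (hε : 0 ≤ ε)
    (M : ℕ) (hM : 1 ≤ M) (hbox : ((∑' z, φ z) - ε) * (M : ℝ) ^ d ≤
      ∑ u : Fin d → Fin M, ∑ v : Fin d → Fin M, freeJ φ u v) (L : ℕ) [NeZero L] :
    |EE (fun x y : Fin d → ZMod L => wrap φ x y) t (fun g => cnt fun v => len g v < s) /
      (L : ℝ) ^ d - EE (fun u v : Fin d → Fin M => freeJ φ u v) t
        (fun h => cnt fun u => len h u < s) / (M : ℝ) ^ d| ≤
    t * s * (ε + (∑' z, φ z) * (1 - ((M * (L / M) : ℕ) : ℝ) ^ d / (L : ℝ) ^ d)) +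
      2 * (1 - ((M * (L / M) : ℕ) : ℝ) ^ d / (L : ℝ) ^ d) := by
  classical
  obtain ⟨w1, w2, w3, w4, -⟩ := hwrap d L 1 0 φ hφ
  obtain ⟨c1, c2⟩ := hcut d L M φ s t hφ hM
  set S : ℝ := ∑' z, φ z with hS
  have hS0 : 0 ≤ S := tsum_nonneg hφ.nonneg
  set A := EE (fun x y : Fin d → ZMod L => wrap φ x y) t (fun g => cnt fun v => len g v < s)
    with hA
  set C := EE (fun x y : Fin d → ZMod L => cutJ M φ x y) t (fun g => cnt fun v => len g v < s)
    with hC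
  set E0 := EE (fun u v : Fin d → Fin M => freeJ φ u v) t (fun h => cnt fun u => len h u < s)
    with hE0
  have hL0 : (0 : ℝ) < (L : ℝ) := by
    have := NeZero.ne L
    positivity
  have hLd : (0 : ℝ) < (L : ℝ) ^ d := by positivity
  have hM0 : (0 : ℝ) < (M : ℝ) := by exact_mod_cast hM
  have hMd : (0 : ℝ) < (M : ℝ) ^ d := by positivity
  have hqL : ((M * (L / M) : ℕ) : ℝ) ≤ L := by exact_mod_cast Nat.mul_div_le L M
  have hqLd : ((M * (L / M) : ℕ) : ℝ) ^ d ≤ (L : ℝ) ^ d := pow_le_pow_left₀ (by positivity) hqL d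
  have hcw : ∀ x y : Fin d → ZMod L, 0 ≤ wrap φ x y - cutJ M φ x y := by
    intro x y
    rw [sub_nonneg]
    unfold cutJ
    split_ifs with h
    · by_cases hxy : x = y
      · subst hxy
        have : (fun a : Fin d => ((x a).val : ℤ) - ((x a).val : ℤ)) = 0 := by
          funext a; simp
        rw [this, hφ.zero]
        exact w2 x x
      · exact w4 x y hxy
    · exact w2 x y
  have hc0 : ∀ x y : Fin d → ZMod L, 0 ≤ cutJ M φ x y := by
    intro x y
    unfold cutJ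
    split_ifs
    · exact hφ.nonneg _
    · exact le_rfl
  -- comparison
  have h1 : |A - C| ≤ t * s * ((L : ℝ) ^ d * S - ((M * (L / M) : ℕ) : ℝ) ^ d * (S - ε)) := by
    have h2 := hcmp (Fin d → ZMod L) (fun x y => cutJ M φ x y)
      (fun x y => wrap φ x y - cutJ M φ x y) t (2 * s) (fun g => cnt fun v => len g v < s)
      hc0 hcw ht (fun a b x y => hdiff _ s a b x y hs)
    have e : (fun x y : Fin d → ZMod L => cutJ M φ x y + (wrap φ x y - cutJ M φ x y)) =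
        fun x y => wrap φ x y := by
      funext x y; ring
    rw [e] at h2
    refine h2.trans ?_
    have h3 : (∑ x : Fin d → ZMod L, ∑ y : Fin d → ZMod L, (wrap φ x y - cutJ M φ x y) / 2) * 2 =
        (∑ x : Fin d → ZMod L, ∑ y : Fin d → ZMod L, wrap φ x y) -
          ∑ x : Fin d → ZMod L, ∑ y : Fin d → ZMod L, cutJ M φ x y := by
      rw [Finset.sum_mul, ← Finset.sum_sub_distrib]
      refine sum_congr rfl fun x _ => ?_
      rw [Finset.sum_mul, ← Finset.sum_sub_distrib]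
      refine sum_congr rfl fun y _ => ?_
      ring
    have h4 : (∑ x : Fin d → ZMod L, ∑ y : Fin d → ZMod L, wrap φ x y) ≤ (L : ℝ) ^ d * S := by
      calc (∑ x : Fin d → ZMod L, ∑ y : Fin d → ZMod L, wrap φ x y)
          ≤ ∑ _x : Fin d → ZMod L, S := sum_le_sum fun x _ => w3 x
        _ = (L : ℝ) ^ d * S := by
          rw [Finset.sum_const, Finset.card_univ, Fintype.card_fun, ZMod.card, Fintype.card_fin,
            nsmul_eq_mul]
          push_cast
          ring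
    have h5 : ((M * (L / M) : ℕ) : ℝ) ^ d * (S - ε) ≤
        ∑ x : Fin d → ZMod L, ∑ y : Fin d → ZMod L, cutJ M φ x y := by
      rw [c1]
      have h6 : ((M * (L / M) : ℕ) : ℝ) ^ d * (S - ε) =
          ((L / M : ℕ) : ℝ) ^ d * ((S - ε) * (M : ℝ) ^ d) := by
        push_cast
        rw [mul_pow]
        ring
      rw [h6]
      exact mul_le_mul_of_nonneg_left hbox (by positivity)
    calc t * (∑ x : Fin d → ZMod L, ∑ y : Fin d → ZMod L, (wrap φ x y - cutJ M φ x y) / 2) *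
          (2 * s) = t * s * ((∑ x : Fin d → ZMod L, ∑ y : Fin d → ZMod L,
            (wrap φ x y - cutJ M φ x y) / 2) * 2) := by ring
      _ ≤ t * s * ((L : ℝ) ^ d * S - ((M * (L / M) : ℕ) : ℝ) ^ d * (S - ε)) := by
        rw [h3]
        exact mul_le_mul_of_nonneg_left (by linarith) (by positivity)
  -- the free box
  have hb : 0 ≤ E0 ∧ E0 ≤ (M : ℝ) ^ d := by
    refine EE_mem _ (fun u v => hφ.nonneg _) t ht _ _ hMd.le (fun g => (cnt_mem _).1) (fun g => ?_)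
    refine (cnt_mem _).2.trans (le_of_eq ?_)
    rw [Fintype.card_fun, Fintype.card_fin, Fintype.card_fin]
    push_cast
    ring
  have h7 : ((L / M : ℕ) : ℝ) ^ d * E0 = ((M * (L / M) : ℕ) : ℝ) ^ d * (E0 / (M : ℝ) ^ d) := by
    push_cast
    rw [mul_pow]
    field_simp
  have hb1 : 0 ≤ E0 / (M : ℝ) ^ d := div_nonneg hb.1 hMd.le
  have hb2 : E0 / (M : ℝ) ^ d ≤ 1 := (div_le_one hMd).2 hb.2
  rw [h7] at c2
  have h8 : |A - (L : ℝ) ^ d * (E0 / (M : ℝ) ^ d)| ≤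
      t * s * ((L : ℝ) ^ d * S - ((M * (L / M) : ℕ) : ℝ) ^ d * (S - ε)) +
        2 * ((L : ℝ) ^ d - ((M * (L / M) : ℕ) : ℝ) ^ d) := by
    have h9 : |((M * (L / M) : ℕ) : ℝ) ^ d * (E0 / (M : ℝ) ^ d) -
        (L : ℝ) ^ d * (E0 / (M : ℝ) ^ d)| ≤ (L : ℝ) ^ d - ((M * (L / M) : ℕ) : ℝ) ^ d := by
      rw [← sub_mul, abs_mul, abs_sub_comm, abs_of_nonneg (by linarith), abs_of_nonneg hb1]
      exact mul_le_of_le_one_right (by linarith) hb2
    have e : A - (L : ℝ) ^ d * (E0 / (M : ℝ) ^ d) = (A - C) +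
        (C - ((M * (L / M) : ℕ) : ℝ) ^ d * (E0 / (M : ℝ) ^ d)) +
        (((M * (L / M) : ℕ) : ℝ) ^ d * (E0 / (M : ℝ) ^ d) - (L : ℝ) ^ d * (E0 / (M : ℝ) ^ d)) := by
      ring
    rw [e]
    refine (abs_add_three _ _ _).trans ?_
    linarith
  have e1 : A / (L : ℝ) ^ d - E0 / (M : ℝ) ^ d =
      (A - (L : ℝ) ^ d * (E0 / (M : ℝ) ^ d)) / (L : ℝ) ^ d := by
    field_simp
  rw [e1, abs_div, abs_of_pos hLd, div_le_iff₀ hLd]
  refine h8.trans ?_
  have e2 : (t * s * (ε + S * (1 - ((M * (L / M) : ℕ) : ℝ) ^ d / (L : ℝ) ^ d)) +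
      2 * (1 - ((M * (L / M) : ℕ) : ℝ) ^ d / (L : ℝ) ^ d)) * (L : ℝ) ^ d =
      t * s * (ε * (L : ℝ) ^ d + S * ((L : ℝ) ^ d - ((M * (L / M) : ℕ) : ℝ) ^ d)) +
        2 * ((L : ℝ) ^ d - ((M * (L / M) : ℕ) : ℝ) ^ d) := by
    field_simp
  rw [e2]
  have h10 : (L : ℝ) ^ d * S - ((M * (L / M) : ℕ) : ℝ) ^ d * (S - ε) ≤
      ε * (L : ℝ) ^ d + S * ((L : ℝ) ^ d - ((M * (L / M) : ℕ) : ℝ) ^ d) := by
    nlinarith [mul_le_mul_of_nonneg_left hqLd hε]
  have h11 := mul_le_mul_of_nonneg_left h10 (mul_nonneg ht hs)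
  linarith

/-- the covered fraction tends to one -/
lemma rho (d M : ℕ) (hM : 1 ≤ M) : Tendsto (fun N : ℕ =>
    1 - ((M * ((N + 1) / M) : ℕ) : ℝ) ^ d / ((N + 1 : ℕ) : ℝ) ^ d) atTop (𝓝 0) := by
  have h1 : Tendsto (fun N : ℕ => 1 - (1 - (M : ℝ) / ((N + 1 : ℕ) : ℝ)) ^ d) atTop (𝓝 0) := by
    have h2 : Tendsto (fun N : ℕ => (M : ℝ) / ((N + 1 : ℕ) : ℝ)) atTop (𝓝 0) :=
      (tendsto_const_div_atTop_nhds_zero_nat (M : ℝ)).comp (tendsto_add_atTop_nat 1)
    have h3 := ((h2.const_sub 1).pow d).const_sub 1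
    simpa using h3
  refine tendsto_of_tendsto_of_tendsto_of_le_of_le' tendsto_const_nhds h1 ?_ ?_
  · refine Eventually.of_forall fun N => ?_
    have hL : (0 : ℝ) < ((N + 1 : ℕ) : ℝ) := by positivity
    have hq : ((M * ((N + 1) / M) : ℕ) : ℝ) ≤ ((N + 1 : ℕ) : ℝ) := by
      exact_mod_cast Nat.mul_div_le (N + 1) M
    show (0 : ℝ) ≤ 1 - ((M * ((N + 1) / M) : ℕ) : ℝ) ^ d / ((N + 1 : ℕ) : ℝ) ^ d
    rw [sub_nonneg, div_le_one (by positivity)]
    exact pow_le_pow_left₀ (by positivity) hq d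
  · filter_upwards [eventually_ge_atTop M] with N hN
    have hL : (0 : ℝ) < ((N + 1 : ℕ) : ℝ) := by positivity
    have hMN : (M : ℝ) ≤ ((N + 1 : ℕ) : ℝ) := by exact_mod_cast (by omega : M ≤ N + 1)
    have hq : ((N + 1 : ℕ) : ℝ) - M ≤ ((M * ((N + 1) / M) : ℕ) : ℝ) := by
      have h3 : N + 1 < M * ((N + 1) / M) + M := by
        have := Nat.lt_mul_div_succ (N + 1) (by omega : 0 < M)
        rw [Nat.mul_add, Nat.mul_one] at this
        exact this
      have h4 : ((N + 1 : ℕ) : ℝ) < ((M * ((N + 1) / M) + M : ℕ) : ℝ) := by exact_mod_cast h3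
      have h5 : ((M * ((N + 1) / M) + M : ℕ) : ℝ) = ((M * ((N + 1) / M) : ℕ) : ℝ) + M := by
        push_cast; ring
      rw [h5] at h4
      linarith
    have h5 : (1 - (M : ℝ) / ((N + 1 : ℕ) : ℝ)) ^ d ≤
        ((M * ((N + 1) / M) : ℕ) : ℝ) ^ d / ((N + 1 : ℕ) : ℝ) ^ d := by
      rw [← div_pow]
      refine pow_le_pow_left₀ ?_ ?_ d
      · rw [sub_nonneg, div_le_one hL]; exact hMN
      · rw [le_div_iff₀ hL, sub_mul, div_mul_cancel₀ _ hL.ne', one_mul]
        exact hq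
    linarith

theorem main : S_cmp → S_cut → S_box → S_wrap → S_diff → S_loc := by
  intro hcmp hcut hbox hwrap hdiff d φ s t hd hφ hs ht
  set a : ℕ → ℝ := fun N => EE (fun x y : Fin d → ZMod (N + 1) => wrap φ x y) t
    (fun g => cnt fun v => len g v < s) / ((N : ℝ) + 1) ^ d with ha
  set S : ℝ := ∑' z, φ z with hS
  have hS0 : 0 ≤ S := tsum_nonneg hφ.nonneg
  have hcs : CauchySeq a := by
    rw [Metric.cauchySeq_iff']
    intro ε' hε'
    have hts : 0 ≤ t * s := mul_nonneg ht hs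
    set ε : ℝ := ε' / (8 * (t * s + 1)) with hεd
    have hε : 0 < ε := by positivity
    obtain ⟨M, hM, hB⟩ := hbox d φ ε hφ hε
    have hB' := hB M le_rfl
    have hest : ∀ N : ℕ, |a N - EE (fun u v : Fin d → Fin M => freeJ φ u v) t
        (fun h => cnt fun u => len h u < s) / (M : ℝ) ^ d| ≤
        t * s * (ε + S * (1 - ((M * ((N + 1) / M) : ℕ) : ℝ) ^ d / ((N + 1 : ℕ) : ℝ) ^ d)) +
          2 * (1 - ((M * ((N + 1) / M) : ℕ) : ℝ) ^ d / ((N + 1 : ℕ) : ℝ) ^ d) := by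
      intro N
      have h := est hcmp hcut hwrap hdiff d φ s t ε hφ hs ht hε.le M hM hB' (N + 1)
      have e : (((N + 1 : ℕ) : ℝ)) = (N : ℝ) + 1 := by push_cast; ring
      simp only [ha]
      rw [← e]
      exact h
    have hlim : Tendsto (fun N : ℕ =>
        t * s * (ε + S * (1 - ((M * ((N + 1) / M) : ℕ) : ℝ) ^ d / ((N + 1 : ℕ) : ℝ) ^ d)) +
          2 * (1 - ((M * ((N + 1) / M) : ℕ) : ℝ) ^ d / ((N + 1 : ℕ) : ℝ) ^ d)) atTop
        (𝓝 (t * s * (ε + S * 0) + 2 * 0)) :=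
      ((((rho d M hM).const_mul S).const_add ε).const_mul (t * s)).add
        ((rho d M hM).const_mul 2)
    have hlt : t * s * (ε + S * 0) + 2 * 0 < ε' / 4 := by
      have h1 : t * s * (ε + S * 0) + 2 * 0 = t * s * ε := by ring
      rw [h1, hεd]
      have h2 : t * s * (ε' / (8 * (t * s + 1))) = (t * s / (t * s + 1)) * (ε' / 8) := by
        field_simp
      rw [h2]
      have h3 : t * s / (t * s + 1) ≤ 1 := (div_le_one (by linarith)).2 (by linarith)
      nlinarith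
    obtain ⟨N0, hN0⟩ := eventually_atTop.1 (hlim.eventually (gt_mem_nhds hlt))
    refine ⟨N0, fun N hN => ?_⟩
    have h1 := (hest N).trans_lt (hN0 N hN)
    have h2 := (hest N0).trans_lt (hN0 N0 le_rfl)
    rw [Real.dist_eq]
    rw [abs_lt] at h1 h2 ⊢
    constructor <;> linarith
  obtain ⟨x, hx⟩ := cauchySeq_tendsto_of_complete hcs
  exact ⟨x, hx⟩

end Pool.Agent.W407.PD.LO
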